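import Mathlib

/-!
# Composite `n` with `2 ^ (n - 1) = 1` modulo `n` and a large prime factor
-/

set_option autoImplicit false

namespace Pool.Agent.K1H20.MW

open Finset Real

/-- the primes modulo which two has the order `t` -/
theorem few_primes (t : ℕ) (ht : 1 ≤ t) (F : Finset ℕ)
    (hF : ∀ p ∈ F, p.Prime ∧ orderOf (2 : ZMod p) = t) : F.card ≤ t := by
  have h1 : ∏ p ∈ F, p ∣ 2 ^ t - 1 := by
    apply Finset.prod_primes_dvd
    · intro p hp
      exact (hF p hp).1.prime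
    · intro p hp
      have h2 : (2 : ZMod p) ^ t = 1 := by
        rw [← (hF p hp).2]
        exact pow_orderOf_eq_one _
      have h3 : ((2 ^ t - 1 : ℕ) : ZMod p) = 0 := by
        rw [Nat.cast_sub Nat.one_le_two_pow]
        push_cast
        rw [h2, sub_self]
      exact (ZMod.natCast_eq_zero_iff _ _).1 h3
  have h4 : 2 ^ F.card ≤ ∏ p ∈ F, p := by
    apply Finset.pow_card_le_prod
    intro p hp
    exact (hF p hp).1.two_le
  have h5 : 2 ^ t - 1 < 2 ^ t := by
    have : 1 ≤ 2 ^ t := Nat.one_le_two_pow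
    omega
  have h6 : 0 < 2 ^ t - 1 := by
    have : 2 ^ 1 ≤ 2 ^ t := Nat.pow_le_pow_right (by norm_num) ht
    omega
  have h7 : 2 ^ F.card < 2 ^ t := lt_of_le_of_lt (h4.trans (Nat.le_of_dvd h6 h1)) h5
  exact (Nat.pow_lt_pow_iff_right (by norm_num)).1 h7 |>.le

theorem struct {n p : ℕ} (hn : 2 ≤ n) (hnp : ¬ n.Prime) (h2 : (2 : ZMod n) ^ (n - 1) = 1)
    (hp : p.Prime) (hpn : p ∣ n) : 1 ≤ orderOf (2 : ZMod p) ∧
      ∃ j : ℕ, 1 ≤ j ∧ n = p * (1 + orderOf (2 : ZMod p) * j) := by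
  have := Fact.mk hp
  have h3 : (2 : ZMod p) ^ (n - 1) = 1 := by
    have := congrArg (ZMod.castHom hpn (ZMod p)) h2
    rw [map_pow, map_one, map_ofNat] at this
    exact this
  have h20 : (2 : ZMod p) ≠ 0 := by
    intro h
    rw [h, zero_pow (by omega)] at h3
    exact zero_ne_one h3
  have ht : orderOf (2 : ZMod p) ∣ n - 1 := orderOf_dvd_of_pow_eq_one h3
  have ht2 : orderOf (2 : ZMod p) ∣ p - 1 := ZMod.orderOf_dvd_card_sub_one h20
  have ht0 : 0 < orderOf (2 : ZMod p) := by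
    rw [orderOf_pos_iff, isOfFinOrder_iff_pow_eq_one]
    exact ⟨n - 1, by omega, h3⟩
  obtain ⟨m, rfl⟩ := hpn
  have hm0 : m ≠ 0 := by
    rintro rfl
    omega
  have hm1 : m ≠ 1 := by
    rintro rfl
    rw [mul_one] at hnp
    exact hnp hp
  have e : p * m - 1 = (p - 1) * m + (m - 1) := by
    obtain ⟨q, rfl⟩ := Nat.exists_eq_succ_of_ne_zero hp.ne_zero
    obtain ⟨l, rfl⟩ := Nat.exists_eq_succ_of_ne_zero hm0
    simp only [Nat.succ_eq_add_one, Nat.add_sub_cancel]
    have : (q + 1) * (l + 1) = q * (l + 1) + l + 1 := by ring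
    omega
  have h4 : orderOf (2 : ZMod p) ∣ m - 1 := by
    rw [e] at ht
    exact (Nat.dvd_add_right (ht2.mul_right m)).1 ht
  obtain ⟨j, hj⟩ := h4
  refine ⟨ht0, j, ?_, ?_⟩
  · rcases Nat.eq_zero_or_pos j with h | h
    · rw [h, mul_zero] at hj
      omega
    · exact h
  · rw [← hj]
    congr 1
    omega

open Classical in
theorem pp (x : ℕ) (hx : 1 ≤ x) (y : ℝ) (hy : 1 ≤ y) :
    (((Ioc 0 x).filter (fun n => 2 ≤ n ∧ ¬ n.Prime ∧ (2 : ZMod n) ^ (n - 1) = 1 ∧
      ∃ p : ℕ, p.Prime ∧ y < p ∧ p ∣ n)).card : ℝ) ≤ x * ((2 + log x) / √y) := by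
  have hx0 : (0 : ℝ) < x := by exact_mod_cast hx
  have hy0 : 0 < y := by linarith
  set t : ℕ → ℕ := fun p => orderOf (2 : ZMod p) with ht
  set P : Finset ℕ := (Ioc 0 x).filter (fun p => p.Prime ∧ y < p ∧ 1 ≤ t p) with hP
  set S := (Ioc 0 x).filter (fun n => 2 ≤ n ∧ ¬ n.Prime ∧ (2 : ZMod n) ^ (n - 1) = 1 ∧
      ∃ p : ℕ, p.Prime ∧ y < p ∧ p ∣ n) with hS
  have hsub : S ⊆ P.biUnion (fun p => (Icc 1 (x / (p * t p))).image (fun j => p * (1 + t p * j))) := by
    intro n hn
    rw [hS, mem_filter, mem_Ioc] at hn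
    obtain ⟨⟨hn0, hnx⟩, hn2, hnp, h2, p, hp, hyp, hpn⟩ := hn
    obtain ⟨h3, j, hj, hnj⟩ := struct hn2 hnp h2 hp hpn
    rw [mem_biUnion]
    refine ⟨p, ?_, ?_⟩
    · rw [hP, mem_filter, mem_Ioc]
      exact ⟨⟨hp.pos, (Nat.le_of_dvd hn0 hpn).trans hnx⟩, hp, hyp, h3⟩
    · rw [mem_image]
      refine ⟨j, ?_, hnj.symm⟩
      rw [mem_Icc]
      refine ⟨hj, ?_⟩
      rw [Nat.le_div_iff_mul_le (Nat.mul_pos hp.pos h3)]
      calc j * (p * t p) ≤ p * (1 + t p * j) := by
            rw [ht]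
            simp only
            have : p * (1 + orderOf (2 : ZMod p) * j) = p + j * (p * orderOf (2 : ZMod p)) := by ring
            omega
        _ = n := hnj.symm
        _ ≤ x := hnx
  have h1 : (S.card : ℝ) ≤ ∑ p ∈ P, (x : ℝ) / (p * t p) := by
    have h2 : S.card ≤ ∑ p ∈ P, x / (p * t p) := by
      refine (card_le_card hsub).trans (card_biUnion_le.trans (sum_le_sum fun p _ => ?_))
      refine card_image_le.trans ?_
      rw [Nat.card_Icc, Nat.add_sub_cancel]
    calc (S.card : ℝ) ≤ ((∑ p ∈ P, x / (p * t p) : ℕ) : ℝ) := by exact_mod_cast h2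
      _ = ∑ p ∈ P, ((x / (p * t p) : ℕ) : ℝ) := by push_cast; rfl
      _ ≤ ∑ p ∈ P, (x : ℝ) / (p * t p) := by
          apply sum_le_sum
          intro p _
          have := @Nat.cast_div_le ℝ _ _ _ x (p * t p)
          push_cast at this
          exact this
  refine h1.trans ?_
  have h3 : ∑ p ∈ P, (x : ℝ) / (p * t p) = x * ∑ p ∈ P, 1 / ((p : ℝ) * t p) := by
    rw [mul_sum]
    apply sum_congr rfl
    intro p _
    rw [mul_one_div]
  rw [h3]
  apply mul_le_mul_of_nonneg_left _ hx0.le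
  set z : ℝ := √y with hz
  have hz0 : 0 < z := sqrt_pos.2 hy0
  have hzz : z * z = y := mul_self_sqrt hy0.le
  rw [← sum_filter_add_sum_filter_not P (fun p => (t p : ℝ) ≤ z)]
  have hA : ∑ p ∈ P.filter (fun p => (t p : ℝ) ≤ z), 1 / ((p : ℝ) * t p) ≤ z / y := by
    have h4 : ∑ p ∈ P.filter (fun p => (t p : ℝ) ≤ z), 1 / ((p : ℝ) * t p) ≤
        ∑ p ∈ P.filter (fun p => (t p : ℝ) ≤ z), 1 / (y * (t p : ℝ)) := by
      apply sum_le_sum
      intro p hp
      rw [mem_filter, hP, mem_filter] at hp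
      have h5 : (0 : ℝ) < t p := by exact_mod_cast hp.1.2.2.2
      apply one_div_le_one_div_of_le (by positivity)
      exact mul_le_mul_of_nonneg_right hp.1.2.2.1.le h5.le
    refine h4.trans ?_
    have hmaps : ∀ p ∈ P.filter (fun p => (t p : ℝ) ≤ z), t p ∈ Icc 1 ⌊z⌋₊ := by
      intro p hp
      rw [mem_filter, hP, mem_filter] at hp
      rw [mem_Icc]
      exact ⟨hp.1.2.2.2, Nat.le_floor hp.2⟩
    rw [← sum_fiberwise_of_maps_to hmaps]
    calc ∑ s ∈ Icc 1 ⌊z⌋₊, ∑ p ∈ (P.filter (fun p => (t p : ℝ) ≤ z)).filter (fun p => t p = s),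
          1 / (y * (t p : ℝ))
        ≤ ∑ s ∈ Icc 1 ⌊z⌋₊, 1 / y := by
          apply sum_le_sum
          intro s hs
          rw [mem_Icc] at hs
          have hs0 : (0 : ℝ) < s := by exact_mod_cast hs.1
          have h6 : ∑ p ∈ (P.filter (fun p => (t p : ℝ) ≤ z)).filter (fun p => t p = s),
              1 / (y * (t p : ℝ)) =
              (((P.filter (fun p => (t p : ℝ) ≤ z)).filter (fun p => t p = s)).card : ℝ) *
                (1 / (y * (s : ℝ))) := by
            rw [← nsmul_eq_mul]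
            apply sum_eq_card_nsmul
            intro p hp
            rw [mem_filter] at hp
            rw [hp.2]
          rw [h6]
          have h7 : ((P.filter (fun p => (t p : ℝ) ≤ z)).filter (fun p => t p = s)).card ≤ s := by
            apply few_primes s hs.1
            intro p hp
            rw [mem_filter, mem_filter, hP, mem_filter] at hp
            exact ⟨hp.1.1.2.1, hp.2⟩
          calc (((P.filter (fun p => (t p : ℝ) ≤ z)).filter (fun p => t p = s)).card : ℝ) *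
                (1 / (y * (s : ℝ))) ≤ s * (1 / (y * (s : ℝ))) := by
                apply mul_le_mul_of_nonneg_right _ (by positivity)
                exact_mod_cast h7
            _ = 1 / y := by field_simp
      _ = (⌊z⌋₊ : ℝ) * (1 / y) := by
          rw [sum_const, Nat.card_Icc, nsmul_eq_mul]
          simp
      _ ≤ z * (1 / y) := by
          apply mul_le_mul_of_nonneg_right (Nat.floor_le hz0.le) (by positivity)
      _ = z / y := by rw [mul_one_div]
  have hB : ∑ p ∈ P.filter (fun p => ¬ (t p : ℝ) ≤ z), 1 / ((p : ℝ) * t p) ≤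
      (1 + log x) / z := by
    have h4 : ∑ p ∈ P.filter (fun p => ¬ (t p : ℝ) ≤ z), 1 / ((p : ℝ) * t p) ≤
        ∑ p ∈ Ioc 0 x, (p : ℝ)⁻¹ * (1 / z) := by
      refine le_trans (sum_le_sum (g := fun p : ℕ => (p : ℝ)⁻¹ * (1 / z)) fun p hp => ?_)
        (sum_le_sum_of_subset_of_nonneg ?_ fun p _ _ => by positivity)
      · rw [mem_filter, hP, mem_filter, mem_Ioc] at hp
        have h5 : (0 : ℝ) < p := by exact_mod_cast hp.1.1.1
        have h6 : z < t p := not_le.1 hp.2
        rw [one_div, mul_inv, one_div]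
        apply mul_le_mul_of_nonneg_left _ (by positivity)
        exact inv_anti₀ hz0 h6.le
      · intro p hp
        rw [mem_filter, hP, mem_filter] at hp
        exact hp.1.1
    refine h4.trans ?_
    rw [← sum_mul]
    have h2 := harmonic_le_one_add_log x
    have h3 : ((harmonic x : ℚ) : ℝ) = ∑ n ∈ Ioc 0 x, (n : ℝ)⁻¹ := by
      rw [harmonic_eq_sum_Icc]
      push_cast
      rfl
    rw [← h3, mul_one_div]
    exact div_le_div_of_nonneg_right h2 hz0.le
  have hzy : z / y = 1 / z := by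
    rw [← hzz]
    field_simp
  rw [hzy] at hA
  calc _ ≤ 1 / z + (1 + log x) / z := add_le_add hA hB
    _ = (2 + log x) / z := by ring

end Pool.Agent.K1H20.MW
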