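import Pool.Agent.K1H20.MW.SM
import Pool.Agent.K1H20.MW.PP

/-!
# The number of composite `n` with `2 ^ (n - 1) = 1` modulo `n`
-/

set_option autoImplicit false

namespace Pool.Agent.K1H20.MW

open Finset Real

open Classical in
theorem fp (x : ℕ) (hx : 1 ≤ x) :
    (((Icc 1 x).filter (fun n => 2 ≤ n ∧ ¬ n.Prime ∧ (2 : ZMod n) ^ (n - 1) = 1)).card : ℝ) ≤
      (exp 11 + 3202) * (x * exp (-(√(log x) / 10))) := by
  have hx0 : (0 : ℝ) < x := by exact_mod_cast hx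
  have hx1 : (1 : ℝ) ≤ x := by exact_mod_cast hx
  have h1 := sm x hx
  have hy : (1 : ℝ) ≤ exp (√(log x) / 4) := one_le_exp (by positivity)
  have h2 := pp x hx (exp (√(log x) / 4)) hy
  set L : ℝ := √(log x) with hL
  have hL0 : 0 ≤ L := sqrt_nonneg _
  have hLsq : L * L = log x := mul_self_sqrt (log_nonneg hx1)
  set S1 := (Ioc 0 x).filter (fun n => ∀ p : ℕ, p.Prime → p ∣ n → (p : ℝ) ≤ exp (L / 4)) with hS1
  set S2 := (Ioc 0 x).filter (fun n => 2 ≤ n ∧ ¬ n.Prime ∧ (2 : ZMod n) ^ (n - 1) = 1 ∧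
      ∃ p : ℕ, p.Prime ∧ exp (L / 4) < p ∧ p ∣ n) with hS2
  have hsub : (Icc 1 x).filter (fun n => 2 ≤ n ∧ ¬ n.Prime ∧ (2 : ZMod n) ^ (n - 1) = 1) ⊆
      S1 ∪ S2 := by
    intro n hn
    rw [mem_filter, mem_Icc] at hn
    obtain ⟨⟨hn1, hnx⟩, hn2, hnp, h2'⟩ := hn
    rw [mem_union]
    by_cases h : ∀ p : ℕ, p.Prime → p ∣ n → (p : ℝ) ≤ exp (L / 4)
    · left
      rw [hS1, mem_filter, mem_Ioc]
      exact ⟨⟨by omega, hnx⟩, h⟩
    · right
      push Not at h
      obtain ⟨p, hp, hpn, hlt⟩ := h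
      rw [hS2, mem_filter, mem_Ioc]
      exact ⟨⟨by omega, hnx⟩, hn2, hnp, h2', p, hp, hlt, hpn⟩
  have h3 : (((Icc 1 x).filter (fun n => 2 ≤ n ∧ ¬ n.Prime ∧
      (2 : ZMod n) ^ (n - 1) = 1)).card : ℝ) ≤ S1.card + S2.card := by
    have := (card_le_card hsub).trans (card_union_le S1 S2)
    exact_mod_cast this
  have e1 : √(exp (L / 4)) = exp (L / 8) := by
    rw [show exp (L / 4) = exp (L / 8) ^ 2 by rw [← exp_nat_mul]; congr 1; push_cast; ring]
    exact sqrt_sq (exp_pos _).le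
  have h4 : (S1.card : ℝ) ≤ exp 11 * (x * exp (-(L / 10))) := by
    refine h1.trans ?_
    rw [mul_assoc]
    gcongr
    linarith
  have h5 : (2 + log x) ≤ 3202 * exp (L / 40) := by
    rw [← hLsq]
    have h6 : (L / 40) ^ 2 / 2 ≤ exp (L / 40) := by
      have := Real.pow_div_factorial_le_exp (L / 40) (by positivity) 2
      simpa using this
    have h7 : (1 : ℝ) ≤ exp (L / 40) := one_le_exp (by positivity)
    nlinarith
  have h6 : (S2.card : ℝ) ≤ 3202 * (x * exp (-(L / 10))) := by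
    refine h2.trans ?_
    rw [e1, div_eq_mul_inv, ← exp_neg]
    calc (x : ℝ) * ((2 + log x) * exp (-(L / 8)))
        ≤ x * ((3202 * exp (L / 40)) * exp (-(L / 8))) := by gcongr
      _ = 3202 * (x * (exp (L / 40) * exp (-(L / 8)))) := by ring
      _ = 3202 * (x * exp (-(L / 10))) := by
          rw [← exp_add]
          congr 3
          ring
  calc _ ≤ (S1.card : ℝ) + S2.card := h3
    _ ≤ exp 11 * (x * exp (-(L / 10))) + 3202 * (x * exp (-(L / 10))) := add_le_add h4 h6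
    _ = _ := by ring

end Pool.Agent.K1H20.MW
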