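import Pool.Agent.K1H20.MW.FP
import Pool.Agent.Results.MP_0b15c0_nt.SmallWitness
import Pool.Agent.Results.MP_0b15c0_nt.SquareRootExceptions
import Pool.Agent.Results.MP_0b15c0_nt.BelowSquareRoot
import Pool.Agent.Results.MP_0b15c0_nt.ManyPrimeFactors

/-!
# Moments of the least witness
-/

set_option autoImplicit false

namespace Pool.Agent.K1H20.MW

open Finset Real

/-- `n` fails the strong test for the base `b` -/
def IsWitness (n b : ℕ) : Prop :=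
  ∀ j d : ℕ, n - 1 = 2 ^ j * d → Odd d →
    (b : ZMod n) ^ d ≠ 1 ∧ ∀ i : ℕ, i < j → (b : ZMod n) ^ (2 ^ i * d) ≠ -1

/-- the least witness -/
noncomputable def W (n : ℕ) : ℕ := sInf {b : ℕ | 1 < b ∧ IsWitness n b}

/-- the composite numbers up to `x` with at least `j` different prime factors -/
def Comp (j x : ℕ) : Finset ℕ :=
  (Finset.Icc 1 x).filter (fun n => 2 ≤ n ∧ ¬ n.Prime ∧ j ≤ n.primeFactors.card)

/-- the exponent `0.0850…` -/
noncomputable def theta : ℝ := 1 / (4 * Real.exp (3 / 4) + 2 * Real.exp (1 / 2))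

/-- the exponent for numbers with at least `j` prime factors -/
noncomputable def th (j : ℕ) : ℝ := if 4 ≤ j then 1 / (2 * j * Real.exp (3 / 4)) else theta

lemma theta_pos : 0 < theta := by
  unfold theta
  positivity

lemma th_pos (j : ℕ) : 0 < th j := by
  unfold th
  split_ifs with h
  · have : (0 : ℝ) < j := by exact_mod_cast (by omega : 0 < j)
    positivity
  · exact theta_pos

lemma minFac_witness {n : ℕ} (hn : 2 ≤ n) (hnp : ¬ n.Prime) :
    1 < n.minFac ∧ IsWitness n n.minFac := by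
  have hp : n.minFac.Prime := Nat.minFac_prime (by omega)
  refine ⟨hp.one_lt, ?_⟩
  have key : ∀ m : ℕ, 0 < m → (n.minFac : ZMod n) ^ m ≠ 1 := by
    intro m hm h
    have hu : IsUnit (n.minFac : ZMod n) := by
      apply IsUnit.of_pow_eq_one h (by omega)
    rw [ZMod.isUnit_iff_coprime] at hu
    have : n.minFac ∣ 1 := by
      rw [← hu]
      exact Nat.dvd_gcd dvd_rfl (Nat.minFac_dvd n)
    exact hp.one_lt.ne' (Nat.dvd_one.1 this)
  intro j d hjd hd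
  have hd0 : 0 < d := hd.pos
  refine ⟨key d hd0, fun i _ h => ?_⟩
  apply key (2 ^ i * d * 2) (by positivity)
  rw [pow_mul, h]
  ring

lemma W_mem {n : ℕ} (hn : 2 ≤ n) (hnp : ¬ n.Prime) : 1 < W n ∧ IsWitness n (W n) :=
  Nat.sInf_mem (s := {b : ℕ | 1 < b ∧ IsWitness n b}) ⟨_, minFac_witness hn hnp⟩

lemma W_le {n b : ℕ} (h1 : 1 < b) (h2 : IsWitness n b) : W n ≤ b := Nat.sInf_le ⟨h1, h2⟩

lemma pow_of_two_lt {n : ℕ} (hn : 2 ≤ n) (h : 2 < W n) : (2 : ZMod n) ^ (n - 1) = 1 := by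
  have h1 : ¬ IsWitness n 2 := fun h2 => by
    have := W_le (by norm_num) h2
    omega
  unfold IsWitness at h1
  push Not at h1
  obtain ⟨j, d, hjd, hd, h3⟩ := h1
  rw [hjd]
  push_cast at h3
  by_cases h4 : (2 : ZMod n) ^ d = 1
  · rw [mul_comm, pow_mul, h4, one_pow]
  · obtain ⟨i, hi, h5⟩ := h3 h4
    have e : 2 ^ j * d = (2 ^ i * d) * 2 * 2 ^ (j - i - 1) := by
      have : j = i + 1 + (j - i - 1) := by omega
      conv_lhs => rw [this]
      rw [pow_add, pow_add]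
      ring
    rw [e, pow_mul, pow_mul, h5]
    simp

lemma W_size0 (j : ℕ) (ε : ℝ) (hε : 0 < ε) : ∃ n0 : ℕ, ∀ n : ℕ, n0 ≤ n → ¬ n.Prime →
    j ≤ n.primeFactors.card → ∃ b : ℕ, 1 < b ∧ (b : ℝ) ≤ (n : ℝ) ^ (th j + ε) ∧
      IsWitness n b := by
  unfold th
  split_ifs with h
  · obtain ⟨n0, h0⟩ := Pool.Agent.Results.MP_0b15c0_nt.ManyPrimeFactors.result j h ε hε
    exact ⟨n0, fun n hn _ hj => h0 n hn hj⟩
  · obtain ⟨n0, h0⟩ := Pool.Agent.Results.MP_0b15c0_nt.SmallWitness.result ε hε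
    exact ⟨n0, fun n hn hnp _ => h0 n hn hnp⟩

lemma W_size (j : ℕ) (ε : ℝ) (hε : 0 < ε) : ∃ C : ℝ, 1 ≤ C ∧ ∀ n : ℕ, 2 ≤ n → ¬ n.Prime →
    j ≤ n.primeFactors.card → (W n : ℝ) ≤ C * (n : ℝ) ^ (th j + ε) := by
  obtain ⟨n0, h0⟩ := W_size0 j ε hε
  refine ⟨max 1 n0, le_max_left _ _, fun n hn hnp hj => ?_⟩
  have hn1 : (1 : ℝ) ≤ n := by exact_mod_cast (by omega : 1 ≤ n)
  have hth := th_pos j
  have h1 : (1 : ℝ) ≤ (n : ℝ) ^ (th j + ε) := one_le_rpow hn1 (by linarith)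
  rcases lt_or_ge n n0 with h | h
  · have h2 : (W n : ℝ) ≤ n0 := by
      have := W_le (minFac_witness hn hnp).1 (minFac_witness hn hnp).2
      have h3 := Nat.minFac_le (n := n) (by omega)
      exact_mod_cast (by omega : W n ≤ n0)
    calc (W n : ℝ) ≤ n0 := h2
      _ ≤ max 1 (n0 : ℝ) := le_max_right _ _
      _ ≤ _ := by
          have : (0 : ℝ) ≤ max 1 (n0 : ℝ) := le_trans zero_le_one (le_max_left _ _)
          nlinarith
  · obtain ⟨b, hb1, hb2, hb3⟩ := h0 n h hnp hj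
    have h2 : (W n : ℝ) ≤ b := by exact_mod_cast W_le hb1 hb3
    calc (W n : ℝ) ≤ b := h2
      _ ≤ (n : ℝ) ^ (th j + ε) := hb2
      _ ≤ _ := by
          have : (1 : ℝ) ≤ max 1 (n0 : ℝ) := le_max_left _ _
          nlinarith

/-- powers are dominated by the exponential -/
lemma rpow_le_exp (s : ℝ) (hs : 0 ≤ s) : ∃ C : ℝ, 1 ≤ C ∧ ∀ u : ℝ, 0 ≤ u → u ^ s ≤ C * exp u := by
  obtain ⟨m, hm⟩ := exists_nat_ge s
  have hf : (1 : ℝ) ≤ (Nat.factorial m : ℝ) := by exact_mod_cast Nat.factorial_pos m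
  refine ⟨(Nat.factorial m : ℝ), hf, fun u hu => ?_⟩
  rcases le_or_gt u 1 with h | h
  · calc u ^ s ≤ 1 := rpow_le_one hu h hs
      _ ≤ 1 * exp u := by rw [one_mul]; exact one_le_exp hu
      _ ≤ _ := by gcongr
  · have h1 := Real.pow_div_factorial_le_exp u hu m
    rw [div_le_iff₀ (by positivity)] at h1
    calc u ^ s ≤ u ^ (m : ℝ) := rpow_le_rpow_of_exponent_le h.le hm
      _ = u ^ m := rpow_natCast u m
      _ ≤ exp u * (Nat.factorial m : ℝ) := h1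
      _ = _ := by ring

lemma log_rpow_le_exp (s : ℝ) (hs : 0 ≤ s) : ∃ C : ℝ, 1 ≤ C ∧ ∀ x : ℝ, 1 ≤ x →
    (log x) ^ s ≤ C * exp (√(log x) / 20) := by
  obtain ⟨C, hC, h⟩ := rpow_le_exp (2 * s) (by linarith)
  refine ⟨(20 : ℝ) ^ (2 * s) * C, ?_, fun x hx => ?_⟩
  · have : (1 : ℝ) ≤ (20 : ℝ) ^ (2 * s) := one_le_rpow (by norm_num) (by linarith)
    nlinarith
  · have hl := log_nonneg hx
    have h1 := h (√(log x) / 20) (by positivity)
    have h2 : (log x) ^ s = (20 : ℝ) ^ (2 * s) * (√(log x) / 20) ^ (2 * s) := by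
      rw [← mul_rpow (by norm_num) (by positivity)]
      have : (20 : ℝ) * (√(log x) / 20) = √(log x) := by ring
      rw [this, rpow_mul (sqrt_nonneg _)]
      congr 1
      rw [rpow_two]
      exact (sq_sqrt hl).symm
    rw [h2, mul_assoc]
    apply mul_le_mul_of_nonneg_left h1 (by positivity)

lemma log_rpow_le_rpow (s δ : ℝ) (hs : 0 ≤ s) (hδ : 0 < δ) : ∃ C : ℝ, 1 ≤ C ∧ ∀ x : ℝ, 1 ≤ x →
    (log x) ^ s ≤ C * x ^ δ := by
  set η : ℝ := δ / (s + 1) with hη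
  have hη0 : 0 < η := by positivity
  have hηs : η * s ≤ δ := by
    rw [hη, div_mul_eq_mul_div, div_le_iff₀ (by linarith)]
    nlinarith
  refine ⟨max 1 ((1 / η) ^ s), le_max_left _ _, fun x hx => ?_⟩
  have hx0 : 0 < x := by linarith
  have h1 : log x ≤ x ^ η / η := log_le_rpow_div hx0.le hη0
  calc (log x) ^ s ≤ (x ^ η / η) ^ s := rpow_le_rpow (log_nonneg hx) h1 hs
    _ = (1 / η) ^ s * x ^ (η * s) := by
        rw [div_eq_mul_one_div, mul_rpow (by positivity) (by positivity), ← rpow_mul hx0.le]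
        ring
    _ ≤ (1 / η) ^ s * x ^ δ := by
        gcongr
    _ ≤ _ := by
        gcongr
        exact le_max_right _ _

lemma mem_comp {j x n : ℕ} :
    n ∈ Comp j x ↔ 2 ≤ n ∧ n ≤ x ∧ ¬ n.Prime ∧ j ≤ n.primeFactors.card := by
  unfold Comp
  rw [mem_filter, mem_Icc]
  constructor
  · rintro ⟨⟨-, h1⟩, h2, h3, h4⟩
    exact ⟨h2, h1, h3, h4⟩
  · rintro ⟨h2, h1, h3, h4⟩
    exact ⟨⟨by omega, h1⟩, h2, h3, h4⟩

open Classical in
/-- the sum over the numbers with a large least witness -/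
lemma sum_large (j : ℕ) (A k ε₁ ε₂ : ℝ) (hA : 2 ≤ A) (hk : 0 ≤ k) (h1 : 0 < ε₁) (h2 : 0 < ε₂) :
    ∃ C : ℝ, 0 ≤ C ∧ ∀ x : ℕ, 1 ≤ x →
      ∑ n ∈ (Comp j x).filter (fun n : ℕ => 2 * (log n) ^ A < W n), (W n : ℝ) ^ k ≤
        C * (x : ℝ) ^ (1 / A + ε₁ + k * (th j + ε₂)) := by
  obtain ⟨K, hK⟩ := Pool.Agent.Results.MP_0b15c0_nt.SquareRootExceptions.result A ε₁ hA h1
  obtain ⟨C, hC, hW⟩ := W_size j ε₂ h2
  refine ⟨max K 0 * C ^ k, by positivity, fun x hx => ?_⟩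
  have hx1 : (1 : ℝ) ≤ x := by exact_mod_cast hx
  have hx0 : (0 : ℝ) < x := by linarith
  have hth := th_pos j
  obtain ⟨hfin, hcard⟩ := hK x hx
  set S := (Comp j x).filter (fun n : ℕ => 2 * (log n) ^ A < W n) with hS
  have hsub : (S : Set ℕ) ⊆
      Pool.Agent.Results.MP_0b15c0_nt.SquareRootExceptions.Exceptions A x := by
    intro n hn
    rw [mem_coe, hS, mem_filter, mem_comp] at hn
    obtain ⟨⟨hn2, hnx, hnp, hnj⟩, hlt⟩ := hn
    refine ⟨hnx, hn2, hnp, ?_⟩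
    rintro ⟨b, hb1, hb2, hb3⟩
    have : (W n : ℝ) ≤ b := by exact_mod_cast W_le hb1 hb3
    linarith
  have hc : (S.card : ℝ) ≤ max K 0 * (x : ℝ) ^ (1 / A + ε₁) := by
    have h3 := Set.ncard_le_ncard hsub hfin
    rw [Set.ncard_coe_finset] at h3
    calc (S.card : ℝ) ≤ _ := by exact_mod_cast h3
      _ ≤ K * (x : ℝ) ^ (1 / A + ε₁) := hcard
      _ ≤ _ := by
          gcongr
          exact le_max_left _ _
  have hb : ∀ n ∈ S, (W n : ℝ) ^ k ≤ C ^ k * (x : ℝ) ^ (k * (th j + ε₂)) := by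
    intro n hn
    rw [hS, mem_filter, mem_comp] at hn
    obtain ⟨⟨hn2, hnx, hnp, hnj⟩, -⟩ := hn
    have h4 := hW n hn2 hnp hnj
    have hnx' : (n : ℝ) ≤ x := by exact_mod_cast hnx
    calc (W n : ℝ) ^ k ≤ (C * (x : ℝ) ^ (th j + ε₂)) ^ k := by
          apply rpow_le_rpow (by positivity) _ hk
          refine h4.trans ?_
          gcongr
      _ = C ^ k * (x : ℝ) ^ (k * (th j + ε₂)) := by
          rw [mul_rpow (by positivity) (by positivity), ← rpow_mul hx0.le]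
          congr 2
          ring
  calc ∑ n ∈ S, (W n : ℝ) ^ k ≤ ∑ n ∈ S, C ^ k * (x : ℝ) ^ (k * (th j + ε₂)) := sum_le_sum hb
    _ = S.card * (C ^ k * (x : ℝ) ^ (k * (th j + ε₂))) := by rw [sum_const, nsmul_eq_mul]
    _ ≤ (max K 0 * (x : ℝ) ^ (1 / A + ε₁)) * (C ^ k * (x : ℝ) ^ (k * (th j + ε₂))) := by
        gcongr
    _ = max K 0 * C ^ k * (x : ℝ) ^ (1 / A + ε₁ + k * (th j + ε₂)) := by
        rw [rpow_add hx0 (1 / A + ε₁)]
        ring

open Classical in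
/-- the sum over the numbers of a set with a small least witness -/
lemma sum_small (A k : ℝ) (hA : 2 ≤ A) (hk : 0 ≤ k) (x : ℕ) (hx : 1 ≤ x) (T : Finset ℕ)
    (hT : ∀ n ∈ T, 2 ≤ n ∧ n ≤ x ∧ (W n : ℝ) ≤ 2 * (log n) ^ A) :
    ∑ n ∈ T, (W n : ℝ) ^ k ≤ T.card * (2 ^ k * (log x) ^ (A * k)) := by
  have hb : ∀ n ∈ T, (W n : ℝ) ^ k ≤ 2 ^ k * (log x) ^ (A * k) := by
    intro n hn
    obtain ⟨hn2, hnx, hlt⟩ := hT n hn
    have hnx' : (n : ℝ) ≤ x := by exact_mod_cast hnx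
    have hn0 : (0 : ℝ) < n := by exact_mod_cast (by omega : 0 < n)
    have hn1 : (1 : ℝ) ≤ n := by exact_mod_cast (by omega : 1 ≤ n)
    have hl : 0 ≤ log (n : ℝ) := log_nonneg hn1
    have hlx : log (n : ℝ) ≤ log x := log_le_log hn0 hnx'
    calc (W n : ℝ) ^ k ≤ (2 * (log x) ^ A) ^ k := by
          apply rpow_le_rpow (by positivity) _ hk
          refine hlt.trans ?_
          gcongr
      _ = 2 ^ k * (log x) ^ (A * k) := by
          rw [mul_rpow (by norm_num) (rpow_nonneg (hl.trans hlx) _), ← rpow_mul (hl.trans hlx)]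
  calc ∑ n ∈ T, (W n : ℝ) ^ k ≤ ∑ n ∈ T, 2 ^ k * (log x) ^ (A * k) := sum_le_sum hb
    _ = T.card * (2 ^ k * (log x) ^ (A * k)) := by rw [sum_const, nsmul_eq_mul]

/-- the choice of the parameters -/
lemma params (j : ℕ) (k ε : ℝ) (hk : 0 ≤ k) (hε : 0 < ε) : ∃ A ε₁ ε₂ : ℝ, 2 ≤ A ∧ 0 < ε₁ ∧ 0 < ε₂ ∧
    1 / A + ε₁ + k * (th j + ε₂) ≤ k * th j + ε := by
  refine ⟨2 + 4 / ε, ε / 4, ε / (2 * (k + 1)), ?_, by positivity, by positivity, ?_⟩
  · have : 0 < 4 / ε := by positivity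
    linarith
  · have h1 : 1 / (2 + 4 / ε) ≤ ε / 4 := by
      rw [div_le_iff₀ (by positivity)]
      have : ε / 4 * (2 + 4 / ε) = ε / 2 + 1 := by
        field_simp
        ring
      rw [this]
      linarith
    have h2 : k * (ε / (2 * (k + 1))) ≤ ε / 2 := by
      rw [mul_div_assoc', div_le_iff₀ (by positivity)]
      nlinarith
    linarith [mul_add k (th j) (ε / (2 * (k + 1)))]

open Classical in
theorem part1 (j : ℕ) (k ε : ℝ) (hk : 0 ≤ k) (hε : 0 < ε) : ∃ C : ℝ, ∀ x : ℕ, 1 ≤ x →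
    ∑ n ∈ (Comp j x).filter (fun n : ℕ => 2 < W n), (W n : ℝ) ^ k ≤
      C * (x * exp (-(√(log x) / 20)) + (x : ℝ) ^ (k * th j + ε)) := by
  obtain ⟨A, ε₁, ε₂, hA, h1, h2, h3⟩ := params j k ε hk hε
  obtain ⟨C1, hC1, hlarge⟩ := sum_large j A k ε₁ ε₂ hA hk h1 h2
  obtain ⟨C2, hC2, hexp⟩ := log_rpow_le_exp (A * k) (by positivity)
  have hth := th_pos j
  refine ⟨max C1 ((exp 11 + 3202) * (2 ^ k * C2)), fun x hx => ?_⟩
  have hx1 : (1 : ℝ) ≤ x := by exact_mod_cast hx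
  have hx0 : (0 : ℝ) < x := by linarith
  set S := (Comp j x).filter (fun n : ℕ => 2 < W n) with hS
  rw [← sum_filter_add_sum_filter_not S (fun n : ℕ => (W n : ℝ) ≤ 2 * (log n) ^ A)]
  have hsm : ∑ n ∈ S.filter (fun n : ℕ => (W n : ℝ) ≤ 2 * (log n) ^ A), (W n : ℝ) ^ k ≤
      ((exp 11 + 3202) * (2 ^ k * C2)) * (x * exp (-(√(log x) / 20))) := by
    refine (sum_small A k hA hk x hx _ ?_).trans ?_
    · intro n hn
      rw [mem_filter, hS, mem_filter, mem_comp] at hn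
      exact ⟨hn.1.1.1, hn.1.1.2.1, hn.2⟩
    · have hcard : ((S.filter (fun n : ℕ => (W n : ℝ) ≤ 2 * (log n) ^ A)).card : ℝ) ≤
          (exp 11 + 3202) * (x * exp (-(√(log x) / 10))) := by
        refine le_trans ?_ (fp x hx)
        have : S.filter (fun n : ℕ => (W n : ℝ) ≤ 2 * (log n) ^ A) ⊆
            (Icc 1 x).filter (fun n => 2 ≤ n ∧ ¬ n.Prime ∧ (2 : ZMod n) ^ (n - 1) = 1) := by
          intro n hn
          rw [mem_filter, hS, mem_filter, mem_comp] at hn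
          rw [mem_filter, mem_Icc]
          exact ⟨⟨by omega, hn.1.1.2.1⟩, hn.1.1.1, hn.1.1.2.2.1, pow_of_two_lt hn.1.1.1 hn.1.2⟩
        exact_mod_cast card_le_card this
      have hlog := hexp x hx1
      calc _ ≤ ((exp 11 + 3202) * (x * exp (-(√(log x) / 10)))) *
            (2 ^ k * (C2 * exp (√(log x) / 20))) := by
            gcongr
        _ = ((exp 11 + 3202) * (2 ^ k * C2)) * (x * (exp (-(√(log x) / 10)) *
            exp (√(log x) / 20))) := by ring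
        _ = _ := by
            rw [← exp_add]
            congr 3
            ring
  have hla : ∑ n ∈ S.filter (fun n : ℕ => ¬ (W n : ℝ) ≤ 2 * (log n) ^ A), (W n : ℝ) ^ k ≤
      C1 * (x : ℝ) ^ (k * th j + ε) := by
    have h4 : ∑ n ∈ S.filter (fun n : ℕ => ¬ (W n : ℝ) ≤ 2 * (log n) ^ A), (W n : ℝ) ^ k ≤
        ∑ n ∈ (Comp j x).filter (fun n : ℕ => 2 * (log n) ^ A < W n), (W n : ℝ) ^ k := by
      apply sum_le_sum_of_subset_of_nonneg
      · intro n hn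
        rw [mem_filter, hS, mem_filter] at hn
        rw [mem_filter]
        exact ⟨hn.1.1, not_le.1 hn.2⟩
      · intro n _ _
        positivity
    refine h4.trans ((hlarge x hx).trans ?_)
    gcongr
  have e1 : 0 ≤ x * exp (-(√(log x) / 20)) := by positivity
  have e2 : 0 ≤ (x : ℝ) ^ (k * th j + ε) := by positivity
  calc _ ≤ ((exp 11 + 3202) * (2 ^ k * C2)) * (x * exp (-(√(log x) / 20))) +
        C1 * (x : ℝ) ^ (k * th j + ε) := add_le_add hsm hla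
    _ ≤ max C1 ((exp 11 + 3202) * (2 ^ k * C2)) * (x * exp (-(√(log x) / 20))) +
        max C1 ((exp 11 + 3202) * (2 ^ k * C2)) * (x : ℝ) ^ (k * th j + ε) := by
        gcongr
        · exact le_max_right _ _
        · exact le_max_left _ _
    _ = _ := by ring

open Classical in
theorem part2 (j : ℕ) (k ε : ℝ) (hk : 0 ≤ k) (hε : 0 < ε) : ∃ C : ℝ, ∀ x : ℕ, 1 ≤ x →
    ∑ n ∈ (Comp j x).filter (fun n : ℕ => 2 * (log n) ^ 2 < W n), (W n : ℝ) ^ k ≤
      C * ((x : ℝ) ^ (1 / 2 - 1 / 20000 + ε) + (x : ℝ) ^ (k * th j + ε)) := by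
  obtain ⟨A, ε₁, ε₂, hA, h1, h2, h3⟩ := params j k ε hk hε
  obtain ⟨C1, hC1, hlarge⟩ := sum_large j A k ε₁ ε₂ hA hk h1 h2
  obtain ⟨C2, hC2, hexp⟩ := log_rpow_le_rpow (A * k) ε (by positivity) hε
  obtain ⟨K, hK⟩ := Pool.Agent.Results.MP_0b15c0_nt.BelowSquareRoot.result
  have hth := th_pos j
  refine ⟨max C1 (max K 0 * (2 ^ k * C2)), fun x hx => ?_⟩
  have hx1 : (1 : ℝ) ≤ x := by exact_mod_cast hx
  have hx0 : (0 : ℝ) < x := by linarith
  obtain ⟨hfin, hcard⟩ := hK x hx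
  set S := (Comp j x).filter (fun n : ℕ => 2 * (log n) ^ 2 < W n) with hS
  rw [← sum_filter_add_sum_filter_not S (fun n : ℕ => (W n : ℝ) ≤ 2 * (log n) ^ A)]
  have hsm : ∑ n ∈ S.filter (fun n : ℕ => (W n : ℝ) ≤ 2 * (log n) ^ A), (W n : ℝ) ^ k ≤
      (max K 0 * (2 ^ k * C2)) * (x : ℝ) ^ (1 / 2 - 1 / 20000 + ε) := by
    refine (sum_small A k hA hk x hx _ ?_).trans ?_
    · intro n hn
      rw [mem_filter, hS, mem_filter, mem_comp] at hn
      exact ⟨hn.1.1.1, hn.1.1.2.1, hn.2⟩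
    · have hcard' : ((S.filter (fun n : ℕ => (W n : ℝ) ≤ 2 * (log n) ^ A)).card : ℝ) ≤
          max K 0 * (x : ℝ) ^ (1 / 2 - 1 / 20000 : ℝ) := by
        have hsub : ((S.filter (fun n : ℕ => (W n : ℝ) ≤ 2 * (log n) ^ A) : Finset ℕ) : Set ℕ) ⊆
            Pool.Agent.Results.MP_0b15c0_nt.BelowSquareRoot.Exceptions x := by
          intro n hn
          rw [mem_coe, mem_filter, hS, mem_filter, mem_comp] at hn
          obtain ⟨⟨⟨hn2, hnx, hnp, hnj⟩, hlt⟩, -⟩ := hn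
          refine ⟨hnx, hn2, hnp, ?_⟩
          rintro ⟨b, hb1, hb2, hb3⟩
          have : (W n : ℝ) ≤ b := by exact_mod_cast W_le hb1 hb3
          linarith
        have h4 := Set.ncard_le_ncard hsub hfin
        rw [Set.ncard_coe_finset] at h4
        calc _ ≤ _ := by exact_mod_cast h4
          _ ≤ _ := hcard
          _ ≤ _ := by
              gcongr
              exact le_max_left _ _
      have hlog := hexp x hx1
      calc _ ≤ (max K 0 * (x : ℝ) ^ (1 / 2 - 1 / 20000 : ℝ)) *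
            (2 ^ k * (C2 * (x : ℝ) ^ ε)) := by
            gcongr
        _ = (max K 0 * (2 ^ k * C2)) * ((x : ℝ) ^ (1 / 2 - 1 / 20000 : ℝ) * (x : ℝ) ^ ε) := by ring
        _ = _ := by rw [← rpow_add hx0]
  have hla : ∑ n ∈ S.filter (fun n : ℕ => ¬ (W n : ℝ) ≤ 2 * (log n) ^ A), (W n : ℝ) ^ k ≤
      C1 * (x : ℝ) ^ (k * th j + ε) := by
    have h4 : ∑ n ∈ S.filter (fun n : ℕ => ¬ (W n : ℝ) ≤ 2 * (log n) ^ A), (W n : ℝ) ^ k ≤
        ∑ n ∈ (Comp j x).filter (fun n : ℕ => 2 * (log n) ^ A < W n), (W n : ℝ) ^ k := by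
      apply sum_le_sum_of_subset_of_nonneg
      · intro n hn
        rw [mem_filter, hS, mem_filter] at hn
        rw [mem_filter]
        exact ⟨hn.1.1, not_le.1 hn.2⟩
      · intro n _ _
        positivity
    refine h4.trans ((hlarge x hx).trans ?_)
    gcongr
  have e1 : 0 ≤ (x : ℝ) ^ (1 / 2 - 1 / 20000 + ε) := by positivity
  have e2 : 0 ≤ (x : ℝ) ^ (k * th j + ε) := by positivity
  calc _ ≤ (max K 0 * (2 ^ k * C2)) * (x : ℝ) ^ (1 / 2 - 1 / 20000 + ε) +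
        C1 * (x : ℝ) ^ (k * th j + ε) := add_le_add hsm hla
    _ ≤ max C1 (max K 0 * (2 ^ k * C2)) * (x : ℝ) ^ (1 / 2 - 1 / 20000 + ε) +
        max C1 (max K 0 * (2 ^ k * C2)) * (x : ℝ) ^ (k * th j + ε) := by
        gcongr
        · exact le_max_right _ _
        · exact le_max_left _ _
    _ = _ := by ring

end Pool.Agent.K1H20.MW
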