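import Pool.Agent.K1H20.MW.Fin

/-!
# Moments of the least witness: means
-/

set_option autoImplicit false

namespace Pool.Agent.K1H20.MW

open Finset Real Filter Topology

/-- there are composite numbers with many prime factors -/
lemma exists_M (j : ℕ) : ∃ M : ℕ, 2 ≤ M ∧ ¬ M.Prime ∧ j ≤ M.primeFactors.card := by
  classical
  set s : Finset ℕ := (Finset.range (j + 2)).image (Nat.nth Nat.Prime) with hs
  have hsp : ∀ p ∈ s, p.Prime := by
    intro p hp
    rw [hs, mem_image] at hp
    obtain ⟨i, -, rfl⟩ := hp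
    exact Nat.prime_nth_prime i
  have hc : s.card = j + 2 := by
    rw [hs, card_image_of_injective _ (Nat.nth_injective Nat.infinite_setOfPred_prime), card_range]
  have h1 : (∏ p ∈ s, p).primeFactors = s := Nat.primeFactors_prod hsp
  have h2 : (∏ p ∈ s, p).primeFactors.card = j + 2 := by rw [h1, hc]
  refine ⟨∏ p ∈ s, p, ?_, ?_, by omega⟩
  · by_contra h
    have h3 : (∏ p ∈ s, p) = 0 ∨ (∏ p ∈ s, p) = 1 := by omega
    rcases h3 with h3 | h3
    · rw [h3] at h2
      simp at h2
    · rw [h3] at h2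
      simp at h2
  · intro hp
    rw [hp.primeFactors, card_singleton] at h2
    omega

lemma card_comp (j : ℕ) : ∃ c : ℝ, 0 < c ∧ ∃ x0 : ℕ, 1 ≤ x0 ∧ ∀ x : ℕ, x0 ≤ x →
    c * x ≤ ((Comp j x).card : ℝ) := by
  obtain ⟨M, hM2, hMp, hMj⟩ := exists_M j
  refine ⟨1 / (2 * M), by positivity, M, by omega, fun x hx => ?_⟩
  have hM0 : 0 < M := by omega
  have h1 : (Icc 1 (x / M)).image (fun m => M * m) ⊆ Comp j x := by
    intro n hn
    rw [mem_image] at hn
    obtain ⟨m, hm, rfl⟩ := hn
    rw [mem_Icc] at hm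
    have hmx : M * m ≤ x := by
      have := Nat.div_mul_le_self x M
      nlinarith
    have hm0 : M * m ≠ 0 := by
      have : 0 < M * m := Nat.mul_pos hM0 (by omega)
      omega
    rw [mem_comp]
    refine ⟨by nlinarith, hmx, ?_, ?_⟩
    · intro hp
      rcases (Nat.dvd_prime hp).1 (Dvd.intro m rfl : M ∣ M * m) with h | h
      · omega
      · rw [← h] at hp
        exact hMp hp
    · exact hMj.trans (card_le_card (Nat.primeFactors_mono (Dvd.intro m rfl) hm0))
  have h2 := card_le_card h1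
  rw [card_image_of_injective _ (fun a b h => Nat.eq_of_mul_eq_mul_left hM0 h), Nat.card_Icc,
    Nat.add_sub_cancel] at h2
  have h3 : x < 2 * M * (x / M) := by
    have h4 : x < M * (x / M) + M := by
      have := Nat.div_add_mod x M
      have := Nat.mod_lt x hM0
      omega
    have h5 : 1 ≤ x / M := (Nat.one_le_div_iff hM0).2 hx
    nlinarith
  have h6 : (x : ℝ) ≤ 2 * M * ((Comp j x).card : ℝ) := by
    have : x ≤ 2 * M * (Comp j x).card := h3.le.trans (Nat.mul_le_mul_left _ h2)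
    exact_mod_cast this
  have hM0' : (0 : ℝ) < M := by exact_mod_cast hM0
  rw [one_div_mul_eq_div, div_le_iff₀ (by positivity)]
  linarith

open Classical in
theorem mean_bound (j : ℕ) (k ε : ℝ) (hk : 0 ≤ k) (hε : 0 < ε) : ∃ C : ℝ, ∃ x0 : ℕ, ∀ x : ℕ,
    x0 ≤ x →
    2 ^ k ≤ (∑ n ∈ Comp j x, (W n : ℝ) ^ k) / (Comp j x).card ∧
    (∑ n ∈ Comp j x, (W n : ℝ) ^ k) / (Comp j x).card ≤
      2 ^ k + C * (exp (-(√(log x) / 20)) + (x : ℝ) ^ (k * th j + ε - 1)) := by
  obtain ⟨C, hC⟩ := part1 j k ε hk hε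
  obtain ⟨c, hc, x0, hx01, hcard⟩ := card_comp j
  refine ⟨max C 0 / c, x0, fun x hx => ?_⟩
  have hx0 : (0 : ℝ) < x := by exact_mod_cast (by omega : 0 < x)
  have hc1 := hcard x hx
  have hc0 : (0 : ℝ) < (Comp j x).card := lt_of_lt_of_le (by positivity) hc1
  have hW2 : ∀ n ∈ Comp j x, (2 : ℝ) ^ k ≤ (W n : ℝ) ^ k := by
    intro n hn
    rw [mem_comp] at hn
    have h1 := (W_mem hn.1 hn.2.2.1).1
    apply rpow_le_rpow (by norm_num) _ hk
    exact_mod_cast h1
  constructor
  · rw [le_div_iff₀ hc0]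
    calc (2 : ℝ) ^ k * (Comp j x).card = ∑ n ∈ Comp j x, (2 : ℝ) ^ k := by
          rw [sum_const, nsmul_eq_mul, mul_comm]
      _ ≤ _ := sum_le_sum hW2
  · rw [div_le_iff₀ hc0]
    have h1 : ∑ n ∈ Comp j x, (W n : ℝ) ^ k ≤
        2 ^ k * (Comp j x).card +
          ∑ n ∈ (Comp j x).filter (fun n : ℕ => 2 < W n), (W n : ℝ) ^ k := by
      rw [sum_filter]
      calc ∑ n ∈ Comp j x, (W n : ℝ) ^ k ≤
          ∑ n ∈ Comp j x, ((2 : ℝ) ^ k + if 2 < W n then (W n : ℝ) ^ k else 0) := by
            apply sum_le_sum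
            intro n hn
            by_cases h : 2 < W n
            · rw [if_pos h]
              have : (0 : ℝ) ≤ 2 ^ k := by positivity
              linarith
            · rw [if_neg h, add_zero]
              apply rpow_le_rpow (by positivity) _ hk
              exact_mod_cast not_lt.1 h
        _ = _ := by
            rw [sum_add_distrib, sum_const, nsmul_eq_mul, mul_comm]
    have h2 := hC x (by omega)
    have e1 : (x : ℝ) ^ (k * th j + ε) = x * (x : ℝ) ^ (k * th j + ε - 1) := by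
      rw [rpow_sub_one hx0.ne']
      field_simp
    set E : ℝ := exp (-(√(log x) / 20)) + (x : ℝ) ^ (k * th j + ε - 1) with hE
    have hE0 : 0 ≤ E := by positivity
    have h3 : C * (x * exp (-(√(log x) / 20)) + (x : ℝ) ^ (k * th j + ε)) ≤
        max C 0 / c * E * (Comp j x).card := by
      have e2 : x * exp (-(√(log x) / 20)) + (x : ℝ) ^ (k * th j + ε) = x * E := by
        rw [e1, hE]
        ring
      rw [e2]
      have h5 : C ≤ max C 0 := le_max_left _ _
      have h6 : 0 ≤ max C 0 := le_max_right _ _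
      calc C * (x * E) ≤ max C 0 * (x * E) := by gcongr
        _ = max C 0 / c * E * (c * x) := by field_simp
        _ ≤ max C 0 / c * E * (Comp j x).card := by gcongr
    calc _ ≤ _ := h1
      _ ≤ 2 ^ k * (Comp j x).card + max C 0 / c * E * (Comp j x).card := by
          have := h2.trans h3
          linarith
      _ = _ := by ring

open Classical in
theorem part3 (j : ℕ) (k : ℝ) (hk : 0 ≤ k) (hth : k * th j < 1) :
    Tendsto (fun x : ℕ => (∑ n ∈ Comp j x, (W n : ℝ) ^ k) / (Comp j x).card) atTop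
      (𝓝 ((2 : ℝ) ^ k)) := by
  obtain ⟨C, x0, hC⟩ := mean_bound j k ((1 - k * th j) / 2) hk (by linarith)
  have h1 : Tendsto (fun x : ℕ => exp (-(√(log x) / 20))) atTop (𝓝 0) := by
    apply tendsto_exp_neg_atTop_nhds_zero.comp
    apply Tendsto.atTop_div_const (by norm_num)
    exact tendsto_sqrt_atTop.comp (tendsto_log_atTop.comp tendsto_natCast_atTop_atTop)
  have h2 : Tendsto (fun x : ℕ => (x : ℝ) ^ (k * th j + (1 - k * th j) / 2 - 1)) atTop (𝓝 0) := by
    have e : k * th j + (1 - k * th j) / 2 - 1 = -((1 - k * th j) / 2) := by ring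
    rw [e]
    exact (tendsto_rpow_neg_atTop (by linarith)).comp tendsto_natCast_atTop_atTop
  have h3 : Tendsto (fun x : ℕ => (2 : ℝ) ^ k + C * (exp (-(√(log x) / 20)) +
      (x : ℝ) ^ (k * th j + (1 - k * th j) / 2 - 1))) atTop (𝓝 ((2 : ℝ) ^ k)) := by
    have := (tendsto_const_nhds (x := (2 : ℝ) ^ k)).add ((h1.add h2).const_mul C)
    simpa using this
  apply tendsto_of_tendsto_of_tendsto_of_le_of_le' tendsto_const_nhds h3
  · filter_upwards [eventually_ge_atTop x0] with x hx
    exact (hC x hx).1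
  · filter_upwards [eventually_ge_atTop x0] with x hx
    exact (hC x hx).2

theorem num : 11.76 < 4 * exp (3 / 4) + 2 * exp (1 / 2) := by
  have h0 := exp_one_gt_d9
  have h1 : (1.6487 : ℝ) < exp (1 / 2) := by
    apply lt_of_pow_lt_pow_left₀ 2 (exp_pos _).le
    rw [← exp_nat_mul]
    have : ((2 : ℕ) : ℝ) * (1 / 2) = 1 := by norm_num
    rw [this]
    norm_num at h0 ⊢
    linarith
  have h2 : (2.1169 : ℝ) < exp (3 / 4) := by
    apply lt_of_pow_lt_pow_left₀ 4 (exp_pos _).le
    rw [← exp_nat_mul]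
    have : ((4 : ℕ) : ℝ) * (3 / 4) = (3 : ℕ) * 1 := by norm_num
    rw [this, exp_nat_mul]
    have h3 : (2.718 : ℝ) ^ 3 ≤ exp 1 ^ 3 := by
      apply pow_le_pow_left₀ (by norm_num)
      norm_num at h0 ⊢
      linarith
    refine lt_of_lt_of_le ?_ (le_trans ?_ (le_refl _) : (2.7182818 : ℝ) ^ 3 ≤ exp 1 ^ 3)
    · norm_num
    · apply pow_le_pow_left₀ (by norm_num)
      norm_num at h0 ⊢
      linarith
  norm_num at h1 h2 ⊢
  linarith

end Pool.Agent.K1H20.MW
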