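import Pool.Agent.TH669.TF.Rankin

/-!
# Smooth numbers up to `exp (√(log x) / 4)`
-/

set_option autoImplicit false

namespace Pool.Agent.K1H20.MW

open Finset Real

open Classical in
theorem sm (x : ℕ) (hx : 1 ≤ x) :
    (((Ioc 0 x).filter (fun n => ∀ p : ℕ, p.Prime → p ∣ n →
      (p : ℝ) ≤ exp (√(log x) / 4))).card : ℝ) ≤ exp 11 * x * exp (-√(log x)) := by
  have hx0 : (0 : ℝ) < x := by exact_mod_cast hx
  have hx1 : (1 : ℝ) ≤ x := by exact_mod_cast hx
  set L : ℝ := √(log x) with hL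
  have hL0 : 0 ≤ L := sqrt_nonneg _
  have hLsq : L * L = log x := mul_self_sqrt (log_nonneg hx1)
  rcases lt_or_ge L 8 with h8 | h8
  · have h1 : (((Ioc 0 x).filter (fun n => ∀ p : ℕ, p.Prime → p ∣ n →
      (p : ℝ) ≤ exp (L / 4))).card : ℝ) ≤ x := by
      have := card_filter_le (Ioc 0 x) (fun n => ∀ p : ℕ, p.Prime → p ∣ n →
        (p : ℝ) ≤ exp (L / 4))
      rw [Nat.card_Ioc] at this
      exact_mod_cast (by omega : _ ≤ x)
    refine h1.trans ?_
    have h2 : (1 : ℝ) ≤ exp 11 * exp (-L) := by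
      rw [← exp_add]
      exact one_le_exp (by linarith)
    nlinarith
  · set y : ℕ := ⌊exp (L / 4)⌋₊ with hy
    have hy1 : 1 ≤ y := by
      rw [hy, Nat.one_le_floor_iff]
      exact one_le_exp (by positivity)
    have hy0 : (0 : ℝ) < y := by exact_mod_cast hy1
    have hyle : (y : ℝ) ≤ exp (L / 4) := Nat.floor_le (exp_pos _).le
    have hLpos : 0 < L := by linarith
    have h4L : 4 / L ≤ 1 / 2 := by
      rw [div_le_iff₀ hLpos]
      linarith
    have h4L0 : 0 ≤ 4 / L := by positivity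
    have hr := TH669.TF.rankin x y hy1 (1 - 4 / L) (by linarith) (by linarith)
    have hsub : ((Ioc 0 x).filter (fun n => ∀ p : ℕ, p.Prime → p ∣ n →
        (p : ℝ) ≤ exp (L / 4))) ⊆ ((Ioc 0 x).filter (fun n => ∀ p : ℕ, p.Prime → p ∣ n → p ≤ y)) := by
      intro n hn
      rw [mem_filter] at hn ⊢
      exact ⟨hn.1, fun p hp hpn => Nat.le_floor (hn.2 p hp hpn)⟩
    have hcard : (((Ioc 0 x).filter (fun n => ∀ p : ℕ, p.Prime → p ∣ n →
        (p : ℝ) ≤ exp (L / 4))).card : ℝ) ≤
        (((Ioc 0 x).filter (fun n => ∀ p : ℕ, p.Prime → p ∣ n → p ≤ y)).card : ℝ) := by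
      exact_mod_cast card_le_card hsub
    refine hcard.trans (le_trans (by convert hr) ?_)
    have e1 : (x : ℝ) ^ (1 - 4 / L) = x * exp (-(4 * L)) := by
      rw [rpow_sub hx0, rpow_one, rpow_def_of_pos hx0, ← hLsq, exp_neg, div_eq_mul_inv]
      congr 3
      field_simp
    have e2 : (y : ℝ) ^ (1 - (1 - 4 / L)) ≤ exp 1 := by
      have : (1 : ℝ) - (1 - 4 / L) = 4 / L := by ring
      rw [this]
      calc (y : ℝ) ^ (4 / L) ≤ (exp (L / 4)) ^ (4 / L) := rpow_le_rpow hy0.le hyle h4L0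
        _ = exp 1 := by
            rw [← exp_mul]
            congr 1
            field_simp
    have e3 : log y ≤ L / 4 := by
      rw [log_le_iff_le_exp hy0]
      exact hyle
    have e4 : 0 ≤ log (y : ℝ) := log_nonneg (by exact_mod_cast hy1)
    have e5 : 4 * ((y : ℝ) ^ (1 - (1 - 4 / L)) * (1 + log y)) ≤ 4 * (2.7183 * (1 + L / 4)) := by
      have h9 : exp 1 ≤ 2.7183 := by
        have := exp_one_lt_d9
        norm_num at this ⊢
        linarith
      have : (y : ℝ) ^ (1 - (1 - 4 / L)) * (1 + log y) ≤ 2.7183 * (1 + L / 4) :=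
        mul_le_mul (e2.trans h9) (by linarith) (by positivity) (by norm_num)
      linarith
    rw [e1]
    calc (x : ℝ) * exp (-(4 * L)) * exp (4 * ((y : ℝ) ^ (1 - (1 - 4 / L)) * (1 + log y)))
        ≤ x * exp (-(4 * L)) * exp (4 * (2.7183 * (1 + L / 4))) := by
          gcongr
      _ = x * exp (-(4 * L) + 4 * (2.7183 * (1 + L / 4))) := by rw [mul_assoc, ← exp_add]
      _ ≤ x * exp (11 - L) := by
          gcongr
          linarith
      _ = exp 11 * x * exp (-L) := by
          rw [sub_eq_add_neg, exp_add]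
          ring

end Pool.Agent.K1H20.MW
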